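import Pool.Agent.L0h84.RG.Fin

/-! There is a separable Banach space, not isomorphic to `c₀`, whose only nontrivial
decompositions are `c₀ ⊕ X` (over the reals and over the complex numbers). -/

namespace Pool.Agent.Results.MP_8c9cbf_an.C0Rigid

open scoped ZeroAtInfty

open Pool.Agent.R184CA Pool.Agent.L0h84.RG in
/-- For `𝕜 = ℝ, ℂ` there is a separable infinite dimensional Banach space `X`, not isomorphic to
`c₀`, which has a nontrivial decomposition and such that in every nontrivial decomposition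
`X = Y ⊕ Z` one of the summands is isomorphic to `c₀` and the other one to `X`. -/
theorem result : ∀ (𝕜 : Type) [RCLike 𝕜],
    ∃ (X : Type) (_ : NormedAddCommGroup X) (_ : NormedSpace 𝕜 X),
      CompleteSpace X ∧ TopologicalSpace.SeparableSpace X ∧
      ¬ Nonempty (X ≃L[𝕜] C₀(ℕ, 𝕜)) ∧
      (∃ Y Z : Submodule 𝕜 X, IsClosed (Y : Set X) ∧ IsClosed (Z : Set X) ∧ IsCompl Y Z ∧
        ¬ FiniteDimensional 𝕜 Y ∧ ¬ FiniteDimensional 𝕜 Z) ∧
      ∀ Y Z : Submodule 𝕜 X, IsClosed (Y : Set X) → IsClosed (Z : Set X) → IsCompl Y Z →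
        ¬ FiniteDimensional 𝕜 Y → ¬ FiniteDimensional 𝕜 Z →
        (Nonempty (Y ≃L[𝕜] C₀(ℕ, 𝕜)) ∧ Nonempty (Z ≃L[𝕜] X)) ∨
        (Nonempty (Z ≃L[𝕜] C₀(ℕ, 𝕜)) ∧ Nonempty (Y ≃L[𝕜] X)) := by
  intro 𝕜 _
  obtain ⟨D, hD⟩ := exists_nodes0 𝕜
  have hmono : Monotone (V0 𝕜) := fun _ _ _ => le_rfl
  let B := bd hD hmono
  have hc : CompleteSpace (XX hD) := complete_top hD fun _ => rfl
  refine ⟨XX hD, inferInstance, inferInstance, hc, X_separable hD B, not_iso_c0 B hD,
    exists_decomp B, ?_⟩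
  intro Y Z hY hZ hYZ hYi hZi
  have cY : CompleteSpace Y := hY.completeSpace_coe
  have cZ : CompleteSpace Z := hZ.completeSpace_coe
  exact decomp hD B (Y.prodEquivOfClosedCompl Z hYZ hY hZ) hYi hZi

end Pool.Agent.Results.MP_8c9cbf_an.C0Rigid
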