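import Pool.Statements.S06521
import Pool.Agent.L0h84.NU

set_option autoImplicit false
open Pool Pool.MP_e7ec4f_an

namespace Pool.Agent.S06521

/-- There is a real or complex quasi-Banach space with a bounded biorthogonal basis that is nearly unconditional (coordinates at least a can be projected boundedly) but not truncation quasi-greedy. -/
theorem result :
    ∃ (𝕂 : Type) (_ : RCLike 𝕂) (X : Type) (_ : AddCommGroup X) (_ : Module 𝕂 X)
      (q : X → ℝ) (κ : ℝ) (x : ℕ → X) (xs : ℕ → X →ₗ[𝕂] 𝕂),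
      (∀ f : X, 0 ≤ q f) ∧
      (∀ f : X, q f = 0 → f = 0) ∧
      (∀ (c : 𝕂) (f : X), q (c • f) = ‖c‖ * q f) ∧
      (∀ f g : X, q (f + g) ≤ κ * (q f + q g)) ∧
      (∀ u : ℕ → X, (∀ ε : ℝ, 0 < ε → ∃ N : ℕ, ∀ m ≥ N, ∀ n ≥ N, q (u m - u n) < ε) →
        ∃ f : X, ∀ ε : ℝ, 0 < ε → ∃ N : ℕ, ∀ n ≥ N, q (u n - f) < ε) ∧
      (∃ B : ℝ, ∀ n : ℕ, q (x n) ≤ B) ∧
      (∃ M : ℝ, ∀ (n : ℕ) (f : X), ‖xs n f‖ ≤ M * q f) ∧
      (∀ m n : ℕ, xs m (x n) = if m = n then 1 else 0) ∧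
      (∀ f : X, ∀ ε : ℝ, 0 < ε → ∃ g ∈ Submodule.span 𝕂 (Set.range x), q (f - g) < ε) ∧
      (∀ a : ℝ, 0 < a → a ≤ 1 → ∃ C : ℝ, ∀ f : X, (∀ n : ℕ, ‖xs n f‖ ≤ 1) →
        ∀ A : Finset ℕ, (∀ n ∈ A, a ≤ ‖xs n f‖) →
          q (∑ n ∈ A, xs n f • x n) ≤ C * q f) ∧
      ¬ (∃ C : ℝ, ∀ f : X, ∀ A : Finset ℕ, A.Nonempty →
          (∀ n ∈ A, ∀ k : ℕ, k ∉ A → ‖xs k f‖ ≤ ‖xs n f‖) →
          ∀ t : ℝ, (∀ n ∈ A, t ≤ ‖xs n f‖) →
            t * q (∑ n ∈ A, (xs n f / ((‖xs n f‖ : ℝ) : 𝕂)) • x n) ≤ C * q f) := by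
  classical
  have : Infinite L0h84.NU.I := by
    refine Infinite.of_injective (fun m : ℕ => (⟨m, ⟨0, ⟨0, by positivity⟩⟩⟩ : L0h84.NU.I)) ?_
    intro m m' h
    exact congrArg Sigma.fst h
  obtain ⟨hD⟩ := nonempty_denumerable L0h84.NU.I
  let e : ℕ ≃ L0h84.NU.I := (@Denumerable.eqv L0h84.NU.I hD).symm
  refine ⟨ℝ, inferInstance, L0h84.NU.X, inferInstance, inferInstance, fun f => ‖f‖, 1,
    fun n => L0h84.NU.x (e n), fun n => L0h84.NU.xs (e n), fun f => norm_nonneg f, ?_, ?_, ?_, ?_, ?_, ?_,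
    ?_, ?_, ?_, ?_⟩
  · intro f hf
    exact norm_eq_zero.1 hf
  · intro c f
    exact norm_smul c f
  · intro f g
    rw [one_mul]
    exact norm_add_le f g
  · intro u hu
    have hc : CauchySeq u := by
      rw [Metric.cauchySeq_iff]
      intro ε hε
      obtain ⟨N, hN⟩ := hu ε hε
      exact ⟨N, fun m hm n hn => by rw [dist_eq_norm]; exact hN m hm n hn⟩
    obtain ⟨f, hf⟩ := cauchySeq_tendsto_of_complete hc
    refine ⟨f, fun ε hε => ?_⟩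
    obtain ⟨N, hN⟩ := Metric.tendsto_atTop.1 hf ε hε
    exact ⟨N, fun n hn => by have := hN n hn; rwa [dist_eq_norm] at this⟩
  · exact ⟨1, fun n => L0h84.NU.norm_x_le _⟩
  · exact ⟨2, fun n f => L0h84.NU.xs_bound _ f⟩
  · intro m n
    rw [L0h84.NU.xs_x]
    simp only [EmbeddingLike.apply_eq_iff_eq]
  · intro f ε hε
    obtain ⟨g, hg, h⟩ := L0h84.NU.dense_span f hε
    refine ⟨g, ?_, h⟩
    have : Set.range (fun n => L0h84.NU.x (e n)) = Set.range L0h84.NU.x :=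
      e.surjective.range_comp L0h84.NU.x
    rw [this]
    exact hg
  · intro a ha ha1
    refine ⟨51 / a, fun f hf A hA => ?_⟩
    have h1 : ∑ n ∈ A, L0h84.NU.xs (e n) f • L0h84.NU.x (e n) =
        ∑ i ∈ A.map e.toEmbedding, L0h84.NU.xs i f • L0h84.NU.x i := by
      rw [Finset.sum_map]; rfl
    rw [h1]
    refine L0h84.NU.near_uncond ha ha1 f ?_ _ ?_
    · intro i
      have := hf (e.symm i)
      simpa using this
    · intro i hi
      obtain ⟨n, hn, rfl⟩ := Finset.mem_map.1 hi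
      exact hA n hn
  · rintro ⟨C, hC⟩
    obtain ⟨m, hm⟩ := pow_unbounded_of_one_lt (2 * C) (one_lt_two (α := ℝ))
    have h := hC (L0h84.NU.mk (L0h84.NU.fv (m + 1), 0)) ((L0h84.NU.B (m + 1)).map e.symm.toEmbedding) ?_ ?_
      ((1 / 2 : ℝ) ^ (m + 1)) ?_
    · have h1 : ∑ n ∈ (L0h84.NU.B (m + 1)).map e.symm.toEmbedding,
          (L0h84.NU.xs (e n) (L0h84.NU.mk (L0h84.NU.fv (m + 1), 0)) /
            ((‖L0h84.NU.xs (e n) (L0h84.NU.mk (L0h84.NU.fv (m + 1), 0))‖ : ℝ) : ℝ)) • L0h84.NU.x (e n) =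
          ∑ i ∈ L0h84.NU.B (m + 1), L0h84.NU.x i := by
        rw [Finset.sum_map]
        refine Finset.sum_congr rfl fun i hi => ?_
        have h2 : e (e.symm.toEmbedding i) = i := e.apply_symm_apply i
        rw [h2, L0h84.NU.xs_fv, if_pos (L0h84.NU.mem_B.1 hi), Real.norm_eq_abs,
          abs_of_pos (L0h84.NU.c_pos i), div_self (L0h84.NU.c_pos i).ne', one_smul]
      have h3 := L0h84.NU.norm_one_lower m
      have h4 := L0h84.NU.norm_fv_le (m + 1)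
      have h5 : (1 / 2 : ℝ) ^ (m + 1) * ‖∑ i ∈ L0h84.NU.B (m + 1), L0h84.NU.x i‖ ≤
          C * ‖L0h84.NU.mk (L0h84.NU.fv (m + 1), 0)‖ := by
        rw [← h1]; exact h
      have h6 : (1 / 2 : ℝ) ^ (m + 1) * 4 ^ m ≤
          (1 / 2 : ℝ) ^ (m + 1) * ‖∑ i ∈ L0h84.NU.B (m + 1), L0h84.NU.x i‖ :=
        mul_le_mul_of_nonneg_left h3 (by positivity)
      have h7 : (1 / 2 : ℝ) ^ (m + 1) * 4 ^ m = 2 ^ m / 2 := by
        have h12 : (1 / 2 : ℝ) ^ (m + 1) * 4 ^ m = ((1 / 2) ^ m * 4 ^ m) * (1 / 2) := by ring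
        rw [h12, ← mul_pow]
        norm_num
        ring
      have h8 : (0:ℝ) < 2 ^ m / 2 := by positivity
      have h9 : 0 ≤ ‖L0h84.NU.mk (L0h84.NU.fv (m + 1), 0)‖ := norm_nonneg _
      have h10 : 0 ≤ C := by
        by_contra hneg
        have : C * ‖L0h84.NU.mk (L0h84.NU.fv (m + 1), 0)‖ ≤ 0 :=
          mul_nonpos_of_nonpos_of_nonneg (not_le.1 hneg).le h9
        linarith
      have h11 : C * ‖L0h84.NU.mk (L0h84.NU.fv (m + 1), 0)‖ ≤ C * 1 := mul_le_mul_of_nonneg_left h4 h10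
      linarith
    · exact ⟨e.symm ⟨m + 1, ⟨0, ⟨0, by positivity⟩⟩⟩,
        Finset.mem_map.2 ⟨_, L0h84.NU.mem_B.2 rfl, rfl⟩⟩
    · intro n _ k hk
      have h1 : (e k).1 ≠ m + 1 := by
        intro h2
        refine hk (Finset.mem_map.2 ⟨e k, L0h84.NU.mem_B.2 h2, ?_⟩)
        exact e.symm_apply_apply k
      rw [L0h84.NU.xs_fv, if_neg h1, norm_zero]
      exact norm_nonneg _
    · intro n hn
      obtain ⟨i, hi, rfl⟩ := Finset.mem_map.1 hn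
      have h2 : e (e.symm.toEmbedding i) = i := e.apply_symm_apply i
      change _ ≤ ‖L0h84.NU.xs (e (e.symm.toEmbedding i)) (L0h84.NU.mk (L0h84.NU.fv (m + 1), 0))‖
      rw [h2, L0h84.NU.xs_fv, if_pos (L0h84.NU.mem_B.1 hi), Real.norm_eq_abs,
        abs_of_pos (L0h84.NU.c_pos i)]
      unfold L0h84.NU.c
      refine pow_le_pow_of_le_one (by norm_num) (by norm_num) ?_
      have h7 := i.2.1.2
      have h8 := L0h84.NU.mem_B.1 hi
      omega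

end Pool.Agent.S06521
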